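import Mathlib

namespace Pool.Agent.Results.MP_56939f_al.Undecidable

/-- `inv` makes the monoid `M` an inverse monoid: `inv x` is the unique inverse of `x`. -/
def IsInv {M : Type} [Monoid M] (inv : M → M) : Prop :=
  ∀ x y : M, (x * y * x = x ∧ y * x * y = y) ↔ y = inv x

/-- words over `A ∪ A⁻¹` with `A = Fin k`; `(i, true)` is `a i`, `(i, false)` its inverse -/
abbrev Word (k : ℕ) := List (Fin k × Bool)

section defs
variable {M : Type} [Monoid M] (inv : M → M) {k : ℕ} (a : Fin k → M)

def letter (l : Fin k × Bool) : M := if l.2 then a l.1 else inv (a l.1)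

def ev (w : Word k) : M := (w.map (letter inv a)).prod

/-- `s`, `t` lie in the same strongly connected component of the Cayley graph -/
def Strong (s t : M) : Prop := (∃ u, s * ev inv a u = t) ∧ ∃ v, t * ev inv a v = s

/-- the Schützenberger graph containing `s` (loops and multiple edges do not affect the metric) -/
def Schutz (s : M) : SimpleGraph {t : M // Strong inv a s t} :=
  SimpleGraph.fromRel fun t t' => ∃ l, t.1 * letter inv a l = t'.1

/-- quasi-isometric (for the path metrics) to a tree -/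
def QITree {X : Type} (Γ : SimpleGraph X) : Prop :=
  ∃ (V : Type) (T : SimpleGraph V) (f : X → V) (L C : ℕ), T.IsTree ∧
    (∀ x y, T.edist (f x) (f y) ≤ L * Γ.edist x y + C ∧ Γ.edist x y ≤ L * T.edist (f x) (f y) + C) ∧
    ∀ v, ∃ x, T.edist (f x) v ≤ C

/-- a finite automaton: transitions, initial states, final states -/
abbrev Aut (k : ℕ) := List (ℕ × (Fin k × Bool) × ℕ) × List ℕ × List ℕ

def Run (δ : List (ℕ × (Fin k × Bool) × ℕ)) : ℕ → Word k → ℕ → Prop
  | p, [], q => p = q
  | p, l :: w, q => ∃ r, (p, l, r) ∈ δ ∧ Run δ r w q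

def Accepts (B : Aut k) (w : Word k) : Prop := ∃ p ∈ B.2.1, ∃ q ∈ B.2.2, Run B.1 p w q

def RatMem (x : Aut k × Word k) : Prop := ∃ v, Accepts x.1 v ∧ ev inv a v = ev inv a x.2

def SubMem (x : List (Word k) × Word k) : Prop :=
  ∀ H : Submonoid M, (∀ v ∈ x.1, ev inv a v ∈ H) → ev inv a x.2 ∈ H

def InvSubMem (x : List (Word k) × Word k) : Prop :=
  ∀ H : Submonoid M, (∀ h ∈ H, inv h ∈ H) → (∀ v ∈ x.1, ev inv a v ∈ H) → ev inv a x.2 ∈ H

def ClosedMem (x : List (Word k) × Word k) : Prop :=
  ∀ H : Submonoid M, (∀ h ∈ H, inv h ∈ H) → (∀ h ∈ H, ∀ m e : M, e * e = e → h = e * m → m ∈ H) →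
    (∀ v ∈ x.1, ev inv a v ∈ H) → ev inv a x.2 ∈ H

lemma ev_cons (l : Fin k × Bool) (w : Word k) :
    ev inv a (l :: w) = letter inv a l * ev inv a w := by simp [ev]
lemma ev_append (v w : Word k) : ev inv a (v ++ w) = ev inv a v * ev inv a w := by simp [ev]
end defs

@[ext] structure N where
  D : Set (ℤ × ℕ)
  g : ℤ

instance : Monoid N where
  mul x y := ⟨x.D ∩ {p | (p.1 - x.g, p.2) ∈ y.D}, x.g + y.g⟩
  one := ⟨Set.univ, 0⟩
  mul_assoc x y z := by
    change N.mk _ _ = N.mk _ _
    ext p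
    · change ((p ∈ x.D ∧ _) ∧ (p.1 - (x.g + y.g), p.2) ∈ z.D) ↔
        (p ∈ x.D ∧ (_ ∧ (p.1 - x.g - y.g, p.2) ∈ z.D))
      rw [and_assoc, sub_sub]; rfl
    · exact add_assoc _ _ _
  one_mul x := by
    change N.mk _ _ = _
    ext p
    · change (True ∧ (p.1 - 0, p.2) ∈ x.D) ↔ _
      simp
    · exact zero_add _
  mul_one x := by
    change N.mk _ _ = _
    ext p
    · change (p ∈ x.D ∧ True) ↔ _
      simp
    · exact add_zero _

@[simp] lemma mem_mul (x y : N) (p : ℤ × ℕ) :
    p ∈ (x * y).D ↔ p ∈ x.D ∧ (p.1 - x.g, p.2) ∈ y.D := Iff.rfl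
@[simp] lemma mul_g (x y : N) : (x * y).g = x.g + y.g := rfl
@[simp] lemma one_D : (1 : N).D = Set.univ := rfl
@[simp] lemma one_g : (1 : N).g = 0 := rfl

def ninv (x : N) : N := ⟨{p | (p.1 + x.g, p.2) ∈ x.D}, -x.g⟩

lemma ninv_spec : IsInv ninv := by
  intro x y
  constructor
  · rintro ⟨h1, h2⟩
    have e : y.g = -x.g := by
      have := congrArg N.g h1
      simp only [mul_g] at this
      omega
    ext p
    · have a1 := Set.ext_iff.1 (congrArg N.D h1) (p.1 + x.g, p.2)
      have a2 := Set.ext_iff.1 (congrArg N.D h2) p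
      simp [e] at a1 a2
      simp only [ninv, Set.mem_setOf_eq]
      tauto
    · exact e
  · rintro rfl
    constructor <;> ext <;> simp [ninv]

lemma ninv_mul (x y : N) : ninv (x * y) = ninv y * ninv x := by
  ext p
  · simp only [ninv, Set.mem_setOf_eq, mem_mul, mul_g]
    rw [and_comm]
    have e1 : p.1 + (x.g + y.g) - x.g = p.1 + y.g := by ring
    have e2 : p.1 - -y.g + x.g = p.1 + (x.g + y.g) := by ring
    rw [e1, e2]
  · simp [ninv]

lemma ninv_ninv (x : N) : ninv (ninv x) = x := by ext <;> simp [ninv]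

section
variable (H : ℕ → Prop)

def sh (g : ℤ) : N := ⟨Set.univ, g⟩
def E0 : N := ⟨{p | ¬ H p.2 ∧ (p.1 = 0 ∨ p.1 = p.2 + 2)}, 0⟩
def gens : Fin 2 → N := ![sh 1, E0 H]

def MM : Submonoid N where
  carrier := Set.range (ev ninv (gens H))
  mul_mem' := by rintro _ _ ⟨u, rfl⟩ ⟨v, rfl⟩; exact ⟨u ++ v, ev_append _ _ _ _⟩
  one_mem' := ⟨[], rfl⟩

lemma ninv_mem {x : N} (hx : x ∈ MM H) : ninv x ∈ MM H := by
  obtain ⟨w, rfl⟩ := hx
  induction w with
  | nil => exact ⟨[], by ext <;> simp [ev, ninv]⟩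
  | cons l w ih =>
    rw [ev_cons, ninv_mul]
    refine mul_mem ih ⟨[(l.1, !l.2)], ?_⟩
    obtain ⟨i, b⟩ := l
    cases b <;> simp [ev, letter, ninv_ninv]

def minv (x : MM H) : MM H := ⟨ninv x.1, ninv_mem H x.2⟩
def mg (i : Fin 2) : MM H := ⟨gens H i, [(i, true)], by simp [ev, letter]⟩

lemma letter_val (l : Fin 2 × Bool) : (letter (minv H) (mg H) l).1 = letter ninv (gens H) l := by
  unfold letter; split_ifs <;> rfl

lemma ev_val (w : Word 2) : (ev (minv H) (mg H) w).1 = ev ninv (gens H) w := by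
  induction w with
  | nil => rfl
  | cons l w ih => rw [ev_cons, ev_cons, Submonoid.coe_mul, ih, letter_val]

lemma l0 (b : Bool) : letter ninv (gens H) (0, b) = sh (if b then 1 else -1) := by
  cases b
  · ext <;> simp [letter, gens, ninv, sh]
  · rfl

lemma l1 (b : Bool) : (letter ninv (gens H) (1, b)).g = 0 := by
  cases b <;> simp [letter, gens, ninv, E0]

lemma strong_D {s t : MM H} (h : Strong (minv H) (mg H) s t) : t.1.D = s.1.D := by
  obtain ⟨⟨u, hu⟩, v, hv⟩ := h
  apply Set.Subset.antisymm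
  · intro p hp; rw [← hu] at hp; exact hp.1
  · intro p hp; rw [← hv] at hp; exact hp.1

lemma tree (s : MM H) : (Schutz (minv H) (mg H) s).IsTree := by
  have ext' : ∀ t t' : {t // Strong (minv H) (mg H) s t}, t.1.1.g = t'.1.1.g → t = t' :=
    fun t t' h => Subtype.ext (Subtype.ext (N.ext ((strong_D H t.2).trans (strong_D H t'.2).symm) h))
  have adj1 : ∀ t t', (Schutz (minv H) (mg H) s).Adj t t' →
      t'.1.1.g = t.1.1.g + 1 ∨ t.1.1.g = t'.1.1.g + 1 := by
    have k : ∀ t t' : {t // Strong (minv H) (mg H) s t}, t ≠ t' →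
        (∃ l, t.1 * letter (minv H) (mg H) l = t'.1) →
        t'.1.1.g = t.1.1.g + 1 ∨ t.1.1.g = t'.1.1.g + 1 := by
      rintro t t' hne ⟨⟨i, b⟩, e⟩
      have := congrArg (fun x : MM H => x.1.g) e
      simp only [Submonoid.coe_mul, mul_g, letter_val] at this
      fin_cases i
      · have e1 := l0 H b
        simp only [Fin.zero_eta] at this
        rw [e1] at this
        cases b <;> simp [sh] at this <;> omega
      · exact absurd (ext' _ _ (by have e1 := l1 H b; simp only [Fin.mk_one] at this; omega)) hne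
    rintro t t' ⟨hne, h | h⟩
    · exact k t t' hne h
    · exact (k t' t hne.symm h).symm
  have step : ∀ (t : {t // Strong (minv H) (mg H) s t}) (b : Bool),
      ∃ t', (Schutz (minv H) (mg H) s).Adj t t' ∧ t'.1.1.g = t.1.1.g + (if b then 1 else -1) := by
    intro t b
    have e : letter (minv H) (mg H) (0, b) * letter (minv H) (mg H) (0, !b) = 1 := by
      apply Subtype.ext
      rw [Submonoid.coe_mul, letter_val, letter_val, l0, l0]
      cases b <;> ext <;> simp [sh]
    obtain ⟨⟨u, hu⟩, v, hv⟩ := t.2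
    have hg : (t.1 * letter (minv H) (mg H) (0, b)).1.g = t.1.1.g + (if b then 1 else -1) := by
      rw [Submonoid.coe_mul, mul_g, letter_val, l0]; rfl
    refine ⟨⟨t.1 * letter (minv H) (mg H) (0, b), ⟨u ++ [(0, b)], ?_⟩, (0, !b) :: v, ?_⟩,
      ⟨fun h => ?_, Or.inl ⟨_, rfl⟩⟩, hg⟩
    · rw [ev_append, ← mul_assoc, hu]; simp [ev]
    · rw [ev_cons, mul_assoc, ← mul_assoc (letter _ _ _), e, one_mul, hv]
    · have := congrArg (fun x : {t // Strong (minv H) (mg H) s t} => x.1.1.g) h
      simp only [hg] at this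
      cases b <;> simp at this
  constructor
  · haveI : Nonempty {t // Strong (minv H) (mg H) s t} := ⟨⟨s, ⟨[], by simp [ev]⟩, [], by simp [ev]⟩⟩
    refine ⟨fun t t' => ?_⟩
    have k : ∀ n : ℤ, ∃ t', (Schutz (minv H) (mg H) s).Reachable t t' ∧ t'.1.1.g = t.1.1.g + n := by
      intro n
      induction n using Int.induction_on with
      | zero => exact ⟨t, .rfl, by simp⟩
      | succ n ih =>
        obtain ⟨x, h1, h2⟩ := ih
        obtain ⟨y, h3, h4⟩ := step x true
        exact ⟨y, h1.trans h3.reachable, by simp at h4; omega⟩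
      | pred n ih =>
        obtain ⟨x, h1, h2⟩ := ih
        obtain ⟨y, h3, h4⟩ := step x false
        exact ⟨y, h1.trans h3.reachable, by simp at h4; omega⟩
    obtain ⟨x, h1, h2⟩ := k (t'.1.1.g - t.1.1.g)
    rwa [ext' x t' (by omega)] at h1
  · rw [SimpleGraph.isAcyclic_iff_forall_adj_isBridge]
    have k : ∀ v w, w.1.1.g = v.1.1.g + 1 → (Schutz (minv H) (mg H) s).Adj v w →
        (Schutz (minv H) (mg H) s).IsBridge s(v, w) := by
      intro v w e _
      rw [SimpleGraph.isBridge_iff]
      intro hr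
      rw [SimpleGraph.reachable_iff_reflTransGen] at hr
      have : ∀ x, Relation.ReflTransGen
          ((Schutz (minv H) (mg H) s).deleteEdges {s(v, w)}).Adj v x → x.1.1.g ≤ v.1.1.g := by
        intro x hx
        induction hx with
        | refl => exact le_rfl
        | @tail x y _ h ih =>
          rw [SimpleGraph.deleteEdges_adj] at h
          rcases adj1 _ _ h.1 with h1 | h1
          · by_contra hc
            apply h.2
            rw [ext' x v (by omega), ext' y w (by omega)]
            rfl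
          · omega
      have := this w hr
      omega
    intro v w h
    rcases adj1 _ _ h with e | e
    · exact k v w e h
    · rw [Sym2.eq_swap]; exact k w v e h.symm

def uw (n : ℕ) : Word 2 :=
  (1, true) :: (List.replicate n (0, true) ++ (1, true) :: List.replicate n (0, false))

lemma ev_rep (n : ℕ) (b : Bool) :
    ev ninv (gens H) (List.replicate n (0, b)) = sh (if b then n else -n) := by
  induction n with
  | zero => ext <;> simp [ev, sh]
  | succ n ih =>
    rw [List.replicate_succ, ev_cons, ih, l0]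
    cases b <;> ext <;> simp [sh] <;> ring

lemma ev_uw (n : ℕ) : (ev (minv H) (mg H) (uw n)).1 =
    ⟨{p | p ∈ (E0 H).D ∧ (p.1 - n, p.2) ∈ (E0 H).D}, 0⟩ := by
  rw [ev_val, uw, ev_cons, ev_append, ev_cons, ev_rep, ev_rep]
  have : letter ninv (gens H) (1, true) = E0 H := rfl
  rw [this]
  ext <;> simp [sh, E0]

lemma ev_z : (ev (minv H) (mg H) (uw 1)).1 = ⟨∅, 0⟩ := by
  rw [ev_uw]; ext p
  · simp only [E0, Set.mem_setOf_eq, Set.mem_empty_iff_false, iff_false]
    omega
  · rfl

lemma eq_iff (m : ℕ) : ev (minv H) (mg H) (uw (m + 2)) = ev (minv H) (mg H) (uw 1) ↔ H m := by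
  rw [Subtype.ext_iff, ev_z, ev_uw]
  constructor
  · intro h
    by_contra hc
    have := Set.ext_iff.1 (congrArg N.D h) (m + 2, m)
    simp [E0, hc] at this
  · intro h
    ext p
    · simp only [E0, Set.mem_setOf_eq, Set.mem_empty_iff_false, iff_false]
      rintro ⟨⟨h1, h2⟩, -, h3⟩
      have : p.2 = m := by omega
      exact h1 (this ▸ h)
    · rfl

def K1 : Submonoid (MM H) where
  carrier := {x | x = 1 ∨ x.1 = ⟨∅, 0⟩}
  mul_mem' := by
    rintro x y (rfl | hx) (rfl | hy)
    · simp
    · simp [hy]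
    · simp [hx]
    · right; rw [Submonoid.coe_mul, hx, hy]; ext <;> simp
  one_mem' := Or.inl rfl

lemma K1_inv : ∀ h ∈ K1 H, minv H h ∈ K1 H := by
  rintro x (rfl | hx)
  · left; apply Subtype.ext; ext <;> simp [minv, ninv]
  · right; ext <;> simp [minv, ninv, hx]

lemma K1_mem {m : ℕ} (h : ev (minv H) (mg H) (uw (m + 2)) ∈ K1 H) : H m := by
  rcases h with h | h
  · have := Set.ext_iff.1 (congrArg N.D ((ev_uw H _).symm.trans (congrArg Subtype.val h))) (1, 0)
    simp [E0] at this
  · exact (eq_iff H m).1 (Subtype.ext (h.trans (ev_z H).symm))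

def autz : Aut 2 :=
  ([(0, (1, true), 1), (1, (0, true), 2), (2, (1, true), 3), (3, (0, false), 4)], [0], [4])

lemma acc_iff (v : Word 2) : Accepts autz v ↔ v = uw 1 := by
  constructor
  · rintro ⟨p, hp, q, hq, h⟩
    obtain rfl : p = 0 := by simpa [autz] using hp
    obtain rfl : q = 4 := by simpa [autz] using hq
    have : ∀ (v : Word 2) (p : ℕ), Run autz.1 p v 4 → v = (uw 1).drop p := by
      intro v
      induction v with
      | nil => rintro p rfl; rfl
      | cons l v ih =>
        rintro p ⟨r, h1, h2⟩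
        rw [ih r h2]
        simp only [autz, List.mem_cons, Prod.mk.injEq, List.not_mem_nil, or_false] at h1
        rcases h1 with ⟨rfl, rfl, rfl⟩ | ⟨rfl, rfl, rfl⟩ | ⟨rfl, rfl, rfl⟩ | ⟨rfl, rfl, rfl⟩ <;> rfl
    exact this v 0 h
  · rintro rfl
    exact ⟨0, by simp [autz], 4, by simp [autz], 1, by simp [autz], 2, by simp [autz], 3,
      by simp [autz], 4, by simp [autz], rfl⟩
end

lemma uw_comp : Computable fun m => uw (m + 2) := by
  have rep : ∀ x : Fin 2 × Bool, Primrec fun n : ℕ => List.replicate n x := by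
    intro x
    refine (Primrec.list_map Primrec.list_range (Primrec.const x).to₂).of_eq fun n => ?_
    simp
  have h2 : Primrec fun m : ℕ => m + 2 := Primrec.nat_add.comp Primrec.id (Primrec.const 2)
  exact (Primrec.list_cons.comp (Primrec.const _) (Primrec.list_append.comp ((rep _).comp h2)
    (Primrec.list_cons.comp (Primrec.const _) ((rep _).comp h2)))).to_comp

def Halt (m : ℕ) : Prop := (Nat.Partrec.Code.eval (Denumerable.ofNat Nat.Partrec.Code m) 0).Dom

lemma red {α : Type} [Primcodable α] {P : α → Prop} (f : ℕ → α) (hf : Computable f)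
    (h : ∀ m, P (f m) ↔ Halt m) : ¬ ComputablePred P := by
  intro hP
  apply ComputablePred.halting_problem 0
  obtain ⟨d, hd⟩ := hP
  refine ⟨fun c => Classical.dec _, (hd.comp (hf.comp Computable.encode)).of_eq fun c => ?_⟩
  simp [h, Halt]

theorem result : ∃ (M : Type) (_ : Monoid M) (inv : M → M) (k : ℕ) (a : Fin k → M),
    IsInv inv ∧ Function.Surjective (ev inv a) ∧ (∀ s, QITree (Schutz inv a s)) ∧
    ¬ ComputablePred (RatMem inv a) ∧ ¬ ComputablePred (SubMem inv a) ∧
    ¬ ComputablePred (InvSubMem inv a) ∧ ¬ ComputablePred (ClosedMem inv a) := by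
  have z1 : ∀ v ∈ [uw 1], ev (minv Halt) (mg Halt) v ∈ K1 Halt := by
    intro v hv
    rw [List.mem_singleton.1 hv]
    exact Or.inr (ev_z Halt)
  refine ⟨MM Halt, inferInstance, minv Halt, 2, mg Halt, fun x y => ?_, ?_, fun s => ?_, ?_, ?_,
    ?_, ?_⟩
  · simp only [Subtype.ext_iff]
    exact ninv_spec x.1 y.1
  · rintro ⟨_, w, rfl⟩
    exact ⟨w, Subtype.ext (ev_val _ w)⟩
  · exact ⟨_, _, id, 1, 0, tree Halt s, fun x y => by simp, fun v => ⟨v, by simp⟩⟩
  · refine red (fun m => (autz, uw (m + 2))) ((Computable.const _).pair uw_comp) fun m => ?_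
    simp only [RatMem, acc_iff, exists_eq_left]
    rw [eq_comm, eq_iff]
  · refine red (fun m => ([uw 1], uw (m + 2))) ((Computable.const _).pair uw_comp) fun m => ?_
    exact ⟨fun h => K1_mem Halt (h _ z1), fun h K hK => by
      rw [(eq_iff Halt m).2 h]; exact hK _ (by simp)⟩
  · refine red (fun m => ([uw 1], uw (m + 2))) ((Computable.const _).pair uw_comp) fun m => ?_
    exact ⟨fun h => K1_mem Halt (h _ (K1_inv Halt) z1), fun h K _ hK => by
      rw [(eq_iff Halt m).2 h]; exact hK _ (by simp)⟩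
  · refine red (fun m => ([uw (m + 2)], uw 1))
      ((Computable.list_cons.comp uw_comp (Computable.const [])).pair (Computable.const _))
      fun m => ⟨fun h => ?_, fun h K _ _ hK => by
        rw [← (eq_iff Halt m).2 h]; exact hK _ (by simp)⟩
    by_contra hc
    let K : Submonoid (MM Halt) :=
      { carrier := {x | x.1.g = 0 ∧ ((m : ℤ) + 2, m) ∈ x.1.D}
        mul_mem' := by
          rintro x y ⟨h1, h2⟩ ⟨h3, h4⟩
          simp [h1, h2, h3, h4]
        one_mem' := by simp }
    have := h K (by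
      rintro x ⟨h1, h2⟩
      exact ⟨by simp [minv, ninv, h1], by simpa [minv, ninv, h1] using h2⟩) (by
      rintro _ ⟨h1, h2⟩ x e he rfl
      have h3 := congrArg (fun y : MM Halt => y.1.g) he
      simp only [Submonoid.coe_mul, mul_g, mem_mul] at h1 h2 h3
      have h4 : e.1.g = 0 := by omega
      exact ⟨by omega, by simpa [h4] using h2.2⟩) (by
      intro v hv
      rw [List.mem_singleton.1 hv]
      change _ ∧ _
      rw [ev_uw]
      simp [E0, hc])
    have h5 := this.2
    rw [ev_z] at h5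
    exact h5

end Pool.Agent.Results.MP_56939f_al.Undecidable
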